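import Pool.Agent.W896.TS.Sim
import Pool.Agent.W896.HP.Cyl

/-!
# The correlation of a simulation with the generalised inner product
-/

set_option autoImplicit false

namespace Pool.Agent.W896.TS

open Pool.Agent.W896.HP Finset Pool.Agent.H541R2

variable {κ ι C : Type}

/-- The event as an element of a sum type. -/
def Out.enc {S : Type} {n : ℕ} : Out S n → Unit ⊕ S ⊕ (S × Fin n × S)
  | .acc => .inl ()
  | .exh p => .inr (.inl p)
  | .fin p t q => .inr (.inr (p, t, q))

theorem Out.enc_inj {S : Type} {n : ℕ} : Function.Injective (Out.enc (S := S) (n := n)) := by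
  intro f g h
  cases f <;> cases g <;> simp_all [Out.enc]

noncomputable instance {S : Type} {n : ℕ} [Fintype S] : Fintype (Out S n) := by
  classical
  exact Fintype.ofInjective _ Out.enc_inj

theorem out_card {S : Type} {n : ℕ} [Fintype S] : Fintype.card (Option (Out S n)) ≤
    1 + (Fintype.card S + Fintype.card S * (n * Fintype.card S)) + 1 := by
  classical
  have h := Fintype.card_le_of_injective _ (Out.enc_inj (S := S) (n := n))
  rw [Fintype.card_option]
  simpa [Fintype.card_prod, Fintype.card_sum] using h

theorem out_bound {S : ℕ} (h : 0 < S) :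
    1 + (S + S * (S * S)) + 1 ≤ 2 ^ (3 * Nat.log 2 S + 5) := by
  have h1 : S < 2 ^ (Nat.log 2 S + 1) := Nat.lt_pow_succ_log_self (by norm_num) S
  have h2 : S * (S * S) ≤ 2 ^ (3 * Nat.log 2 S + 3) := by
    calc S * (S * S) ≤ 2 ^ (Nat.log 2 S + 1) * (2 ^ (Nat.log 2 S + 1) * 2 ^ (Nat.log 2 S + 1)) :=
          Nat.mul_le_mul h1.le (Nat.mul_le_mul h1.le h1.le)
      _ = 2 ^ (3 * Nat.log 2 S + 3) := by rw [← pow_add, ← pow_add]; congr 1; ring
  have h3 : 1 ≤ S * (S * S) := Nat.mul_pos h (Nat.mul_pos h h)
  have h4 : S ≤ S * (S * S) := Nat.le_mul_of_pos_right _ (Nat.mul_pos h h)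
  have h5 : 2 ^ (3 * Nat.log 2 S + 5) = 4 * 2 ^ (3 * Nat.log 2 S + 3) := by
    rw [show 3 * Nat.log 2 S + 5 = (3 * Nat.log 2 S + 3) + 2 by ring, pow_add]; ring
  omega

open Classical in
/-- The correlation of a set with the generalised inner product. -/
noncomputable def corr {g N : ℕ} (E : Set (Fin (g + 1) → Fin N → Bool)) : ℝ :=
  ∑ b, gsign univ b * (if b ∈ E then 1 else 0)

theorem corr_cyl {g N : ℕ} {E : Set (Fin (g + 1) → Fin N → Bool)} (hE : IsCyl E) :
    |corr E| ≤ (2 ^ N : ℝ) ^ (g + 1) * (mu g) ^ N := by
  classical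
  obtain ⟨D, h1, h2⟩ := hE
  have key := gip_disc g N Finset.univ (fun i b => if b ∈ D i then (1 : ℝ) else 0)
    (by intro i x; split_ifs <;> simp)
    (by
      intro i x y hxy
      have : x ∈ D i ↔ y ∈ D i := ⟨h1 i x y hxy, h1 i y x (fun j hj => (hxy j hj).symm)⟩
      by_cases hx : x ∈ D i
      · rw [if_pos hx, if_pos (this.mp hx)]
      · rw [if_neg hx, if_neg (fun hy => hx (this.mpr hy))])
  rw [Finset.card_univ, Fintype.card_fin] at key
  have e : corr E = ∑ x : Fin (g + 1) → (Fin N → Bool), gsign Finset.univ x *
      ∏ i, (if x ∈ D i then (1 : ℝ) else 0) := by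
    unfold corr
    apply Finset.sum_congr rfl
    intro x _
    congr 1
    by_cases hx : x ∈ E
    · have : ∀ i, x ∈ D i := (h2 x).mp hx
      rw [if_pos hx]
      simp [this]
    · rw [if_neg hx]
      have : ∃ i, x ∉ D i := by
        by_contra hh
        push Not at hh
        exact hx ((h2 x).mpr hh)
      obtain ⟨i, hi⟩ := this
      exact (Finset.prod_eq_zero (Finset.mem_univ i) (by simp [hi])).symm
  rw [e]
  exact key

/-- A partition of a set. -/
theorem corr_partition {g N : ℕ} {O : Type} [Fintype O] (E : Set (Fin (g + 1) → Fin N → Bool))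
    (f : (Fin (g + 1) → Fin N → Bool) → O) :
    corr E = ∑ o, corr (E ∩ {b | f b = o}) := by
  classical
  unfold corr
  rw [Finset.sum_comm]
  apply Finset.sum_congr rfl
  intro b _
  rw [← Finset.mul_sum]
  congr 1
  rw [Finset.sum_eq_single (f b)]
  · by_cases hb : b ∈ E
    · rw [if_pos hb, if_pos ⟨hb, rfl⟩]
    · rw [if_neg hb, if_neg (fun h => hb h.1)]
  · intro o _ ho
    rw [if_neg]
    exact fun h => ho h.2.symm
  · intro h; exact absurd (mem_univ _) h

/-- The set of the inputs which are accepted by the simulation. -/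
def simSet {κ : Type} [DecidableEq κ] {k N : ℕ} (P : Prog κ (Fin (2 * k + 1) × Fin N)) (n : ℕ)
    (Z : Sta κ (Fin (2 * k + 1)) P.State) : Set (Fin (2 * k + 1) → Fin N → Bool) :=
  {b | sim P Prod.fst (unc b) n Z = true}

theorem exists_not_files {κ : Type} [Fintype κ] {k : ℕ} (hk : Fintype.card κ ≤ k) {S : Type}
    (Z : Sta κ (Fin (2 * k + 1)) S) : ∃ i, i ∉ files Z := by
  classical
  by_contra hcon
  push Not at hcon
  have h1 : ∀ cur : κ → Fin (2 * k + 1), (univ.image cur).card ≤ k := fun cur =>
    card_image_le.trans hk
  obtain ⟨A, hA, hA'⟩ : ∃ A : Finset (Fin (2 * k + 1)), A.card ≤ 2 * k ∧ ∀ i ∈ files Z, i ∈ A := by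
    unfold files
    cases hh : Z.segs.head? with
    | none =>
      refine ⟨univ.image Z.cur, (h1 _).trans (by omega), ?_⟩
      rintro i (⟨h, rfl⟩ | hi)
      · exact mem_image_of_mem _ (mem_univ _)
      · exact absurd hi (Set.notMem_empty _)
    | some D =>
      refine ⟨univ.image Z.cur ∪ univ.image D.cur, ?_, ?_⟩
      · have h2 := card_union_le (univ.image Z.cur) (univ.image D.cur)
        have h3 := h1 Z.cur
        have h4 := h1 D.cur
        omega
      · rintro i (⟨h, rfl⟩ | ⟨h, rfl⟩)
        · exact mem_union_left _ (mem_image_of_mem _ (mem_univ _))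
        · exact mem_union_right _ (mem_image_of_mem _ (mem_univ _))
  have h2 : A = univ := by
    ext i
    simp [hA' i (hcon i)]
  rw [h2, card_univ, Fintype.card_fin] at hA
  omega

/-- **The correlation of the simulation with the generalised inner product.** -/
theorem sim_corr {κ : Type} [DecidableEq κ] [Fintype κ] {k N : ℕ} (hk : Fintype.card κ ≤ k)
    (P : Prog κ (Fin (2 * k + 1) × Fin N)) : ∀ (n : ℕ)
    (Z : Sta κ (Fin (2 * k + 1)) P.State) (E : Set (Fin (2 * k + 1) → Fin N → Bool)), IsCyl E →
      |corr (E ∩ simSet P n Z)| ≤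
        (Fintype.card (Option (Out P.State (Fintype.card P.State))) : ℝ) ^ n *
          ((2 ^ N : ℝ) ^ (2 * k + 1) * (mu (2 * k)) ^ N) := by
  classical
  have hμ := mu_nonneg (2 * k)
  have hV1 : (1 : ℝ) ≤ (Fintype.card (Option (Out P.State (Fintype.card P.State))) : ℝ) := by
    have : 1 ≤ Fintype.card (Option (Out P.State (Fintype.card P.State))) :=
      Fintype.card_pos_iff.2 ⟨none⟩
    exact_mod_cast this
  intro n
  induction n with
  | zero =>
    intro Z E hE
    have h1 : E ∩ simSet P 0 Z = ∅ := by
      ext b
      simp [simSet, sim]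
    rw [h1]
    have h2 : corr (∅ : Set (Fin (2 * k + 1) → Fin N → Bool)) = 0 := by
      unfold corr
      simp
    rw [h2, abs_zero]
    positivity
  | succ n ih =>
    intro Z E hE
    obtain ⟨i₀, hi₀⟩ := exists_not_files hk Z
    rw [corr_partition _ (fun b => out P Prod.fst (unc b) Z)]
    have hcyl : ∀ o, IsCyl (E ∩ {b : Fin (2 * k + 1) → Fin N → Bool |
        out P Prod.fst (unc b) Z = o}) := by
      intro o
      refine hE.inter i₀ _ ?_
      intro b b' hb h
      change out P Prod.fst (unc b') Z = o
      have h' : out P Prod.fst (unc b) Z = o := h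
      rw [← h']
      refine (out_dep ?_).symm
      rintro ⟨i, j⟩ hi
      change b i j = b' i j
      rw [hb i (by rintro rfl; exact hi₀ hi)]
    have hterm : ∀ o, |corr (E ∩ simSet P (n + 1) Z ∩ {b : Fin (2 * k + 1) → Fin N → Bool |
        out P Prod.fst (unc b) Z = o})| ≤
        (Fintype.card (Option (Out P.State (Fintype.card P.State))) : ℝ) ^ n *
          ((2 ^ N : ℝ) ^ (2 * k + 1) * (mu (2 * k)) ^ N) := by
      intro o
      have hone : (1 : ℝ) ≤
          (Fintype.card (Option (Out P.State (Fintype.card P.State))) : ℝ) ^ n :=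
        one_le_pow₀ hV1
      cases o with
      | none =>
        have h1 : E ∩ simSet P (n + 1) Z ∩ {b : Fin (2 * k + 1) → Fin N → Bool |
            out P Prod.fst (unc b) Z = none} = ∅ := by
          ext b
          simp only [Set.mem_inter_iff, Set.mem_ofPred_eq, Set.mem_empty_iff_false, iff_false,
            not_and]
          intro h1 h2
          have h3 : sim P Prod.fst (unc b) (n + 1) Z = true := h1.2
          rw [sim, h2] at h3
          simp at h3
        rw [h1]
        have h2 : corr (∅ : Set (Fin (2 * k + 1) → Fin N → Bool)) = 0 := by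
          unfold corr
          simp
        rw [h2, abs_zero]
        positivity
      | some o =>
        cases o with
        | acc =>
          have h1 : E ∩ simSet P (n + 1) Z ∩ {b : Fin (2 * k + 1) → Fin N → Bool |
              out P Prod.fst (unc b) Z = some .acc} = E ∩ {b |
                out P Prod.fst (unc b) Z = some .acc} := by
            ext b
            constructor
            · rintro ⟨h1, h2⟩; exact ⟨h1.1, h2⟩
            · rintro ⟨h1, h2⟩
              refine ⟨⟨h1, ?_⟩, h2⟩
              change sim P Prod.fst (unc b) (n + 1) Z = true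
              have h2' : out P Prod.fst (unc b) Z = some .acc := h2
              rw [sim, h2']
          rw [h1]
          refine (corr_cyl (hcyl _)).trans ?_
          exact le_mul_of_one_le_left (by positivity) hone
        | exh p =>
          have h1 : E ∩ simSet P (n + 1) Z ∩ {b : Fin (2 * k + 1) → Fin N → Bool |
              out P Prod.fst (unc b) Z = some (.exh p)} = (E ∩ {b |
                out P Prod.fst (unc b) Z = some (.exh p)}) ∩
                simSet P n (next P Prod.fst Z (.exh p)) := by
            ext b
            constructor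
            · rintro ⟨h1, h2⟩
              refine ⟨⟨h1.1, h2⟩, ?_⟩
              have h2' : out P Prod.fst (unc b) Z = some (.exh p) := h2
              have h3 : sim P Prod.fst (unc b) (n + 1) Z = true := h1.2
              rw [sim, h2'] at h3
              exact h3
            · rintro ⟨⟨h1, h2⟩, h3⟩
              refine ⟨⟨h1, ?_⟩, h2⟩
              change sim P Prod.fst (unc b) (n + 1) Z = true
              have h2' : out P Prod.fst (unc b) Z = some (.exh p) := h2
              rw [sim, h2']
              exact h3
          rw [h1]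
          exact ih _ _ (hcyl _)
        | fin p t q' =>
          have h1 : E ∩ simSet P (n + 1) Z ∩ {b : Fin (2 * k + 1) → Fin N → Bool |
              out P Prod.fst (unc b) Z = some (.fin p t q')} = (E ∩ {b |
                out P Prod.fst (unc b) Z = some (.fin p t q')}) ∩
                simSet P n (next P Prod.fst Z (.fin p t q')) := by
            ext b
            constructor
            · rintro ⟨h1, h2⟩
              refine ⟨⟨h1.1, h2⟩, ?_⟩
              have h2' : out P Prod.fst (unc b) Z = some (.fin p t q') := h2
              have h3 : sim P Prod.fst (unc b) (n + 1) Z = true := h1.2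
              rw [sim, h2'] at h3
              exact h3
            · rintro ⟨⟨h1, h2⟩, h3⟩
              refine ⟨⟨h1, ?_⟩, h2⟩
              change sim P Prod.fst (unc b) (n + 1) Z = true
              have h2' : out P Prod.fst (unc b) Z = some (.fin p t q') := h2
              rw [sim, h2']
              exact h3
          rw [h1]
          exact ih _ _ (hcyl _)
    calc |∑ o, corr (E ∩ simSet P (n + 1) Z ∩ {b : Fin (2 * k + 1) → Fin N → Bool |
        out P Prod.fst (unc b) Z = o})| ≤ ∑ o, |corr (E ∩ simSet P (n + 1) Z ∩
        {b : Fin (2 * k + 1) → Fin N → Bool | out P Prod.fst (unc b) Z = o})| :=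
          Finset.abs_sum_le_sum_abs _ _
      _ ≤ ∑ _o : Option (Out P.State (Fintype.card P.State)),
        (Fintype.card (Option (Out P.State (Fintype.card P.State))) : ℝ) ^ n *
          ((2 ^ N : ℝ) ^ (2 * k + 1) * (mu (2 * k)) ^ N) :=
          Finset.sum_le_sum (fun o _ => hterm o)
      _ = _ := by
          rw [Finset.sum_const, card_univ, nsmul_eq_mul, pow_succ]
          ring

end Pool.Agent.W896.TS
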