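import Pool.Agent.W896.TS.Corr
import Pool.Agent.W896.HP.Sat

/-!
# Two-sided error: the product of head movement and space is quadratic
-/

set_option autoImplicit false

namespace Pool.Agent.W896.TS

open Pool.Agent.W896.HP Finset Pool.Agent.H541R2 Pool.Agent.H554R2.Cnf

variable {κ ι V C : Type}

theorem phs_le [Fintype κ] [DecidableEq κ] [DecidableEq C] (χ : ι → C) (pos : ι → ℕ) (L : ℕ)
    (hL : ∀ i j, χ i ≠ χ j → L ≤ Nat.dist (pos i) (pos j)) (l : List (κ × ι)) :
    ∀ cur : κ → C, phs χ cur l * L ≤ ∑ h, (way pos (cells h l) +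
      match cells h l with
      | [] => 0
      | i :: _ => if χ i = cur h then 0 else L) := by
  induction l with
  | nil => intro cur; simp [phs]
  | cons a l ih =>
    obtain ⟨h, i⟩ := a
    intro cur
    have hsplit : ∀ (F : κ → ℕ), ∑ h', F h' = F h + ∑ h' ∈ univ.erase h, F h' := fun F =>
      (Finset.add_sum_erase _ _ (Finset.mem_univ h)).symm
    have hrest : ∀ cur' : κ → C, (∀ h', h' ≠ h → cur' h' = cur h') →
        ∑ h' ∈ univ.erase h, (way pos (cells h' l) +
          match cells h' l with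
          | [] => 0
          | i :: _ => if χ i = cur' h' then 0 else L) =
        ∑ h' ∈ univ.erase h, (way pos (cells h' ((h, i) :: l)) +
          match cells h' ((h, i) :: l) with
          | [] => 0
          | i :: _ => if χ i = cur h' then 0 else L) := by
      intro cur' hc
      apply Finset.sum_congr rfl
      intro h' hh
      rw [cells_cons_ne (Finset.ne_of_mem_erase hh).symm, hc h' (Finset.ne_of_mem_erase hh)]
    have key : ∀ c : C, c = χ i → way pos (cells h l) + (match cells h l with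
          | [] => 0
          | i :: _ => if χ i = c then 0 else L) ≤ way pos (i :: cells h l) := by
      rintro c rfl
      cases cells h l with
      | nil => simp [way]
      | cons j r =>
        rw [way]
        by_cases hj : χ j = χ i
        · simp only [if_pos hj]; omega
        · simp only [if_neg hj]
          have := hL i j (fun h => hj h.symm)
          omega
    by_cases hi : χ i = cur h
    · rw [phs, if_pos hi]
      refine (ih cur).trans ?_
      rw [hsplit, hsplit (fun h' => way pos (cells h' ((h, i) :: l)) +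
          match cells h' ((h, i) :: l) with
          | [] => 0
          | i :: _ => if χ i = cur h' then 0 else L), hrest cur (fun _ _ => rfl), cells_cons_self]
      simp only [if_pos hi]
      have := key (cur h) hi.symm
      omega
    · rw [phs, if_neg hi]
      have h1 := ih (Function.update cur h (χ i))
      rw [hsplit, hrest _ (fun h' hh => Function.update_of_ne hh _ _),
        Function.update_self] at h1
      rw [hsplit (fun h' => way pos (cells h' ((h, i) :: l)) +
          match cells h' ((h, i) :: l) with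
          | [] => 0
          | i :: _ => if χ i = cur h' then 0 else L), cells_cons_self]
      simp only [if_neg hi]
      have h2 := key (χ i) rfl
      have h3 : (phs χ (Function.update cur h (χ i)) l + 1) * L =
        phs χ (Function.update cur h (χ i)) l * L + L := by ring
      omega

theorem phs_le' [Fintype κ] [DecidableEq κ] [DecidableEq C] (χ : ι → C) (pos : ι → ℕ) (L : ℕ)
    (hL : ∀ i j, χ i ≠ χ j → L ≤ Nat.dist (pos i) (pos j)) (l : List (κ × ι)) (cur : κ → C) :
    phs χ cur l * L ≤ travel pos l + Fintype.card κ * L := by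
  refine (phs_le χ pos L hL l cur).trans ?_
  rw [Finset.sum_add_distrib]
  refine Nat.add_le_add_left ?_ _
  calc _ ≤ ∑ _h : κ, L := by
        apply Finset.sum_le_sum
        intro h _
        cases cells h l with
        | nil => exact Nat.zero_le _
        | cons i r =>
          change (if χ i = cur h then 0 else L) ≤ L
          split_ifs <;> omega
    _ = _ := by rw [Finset.sum_const, card_univ, smul_eq_mul]

theorem fixP_det {p : ι → V} {b : V → Bool} {P : Prog κ V} (hP : Det P) : Det (fixP p b P) := by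
  intro q R h
  change fixAct p b (P.act q) = _ at h
  cases ha : P.act q with
  | query h' v nxt =>
    rw [ha] at h
    simp only [fixAct] at h
    cases hv : idx p v with
    | none =>
      rw [hv] at h
      injection h with h1
      rw [← h1]
      exact Set.subsingleton_singleton
    | some i => rw [hv] at h; simp at h
  | push a q' => rw [ha] at h; simp [fixAct] at h
  | pop nxt => rw [ha] at h; simp [fixAct] at h
  | choose R' =>
    rw [ha] at h
    simp only [fixAct] at h
    injection h with h1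
    rw [← h1]
    exact hP q R' ha
  | accept => rw [ha] at h; simp [fixAct] at h

/-- Two-sided averaging. -/
theorem average2 {X R : Type} [Fintype X] [Fintype R] [Nonempty R] (S : X → Prop)
    [DecidablePred S] (A : R → X → Prop) [∀ r x, Decidable (A r x)] (q : ℕ)
    (h : ∀ x y, S x → ¬ S y → (Fintype.card R : ℝ) + 2 ^ q * (univ.filter (fun r => A r y)).card ≤
      2 ^ q * (univ.filter (fun r => A r x)).card) :
    ∃ r, ((univ.filter (fun x => S x)).card : ℝ) * (univ.filter (fun x => ¬ S x)).card ≤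
      2 ^ q * ((univ.filter (fun x => ¬ S x)).card *
        (univ.filter (fun x => S x ∧ A r x)).card -
        (univ.filter (fun x => S x)).card * (univ.filter (fun x => ¬ S x ∧ A r x)).card) := by
  by_contra hc
  push Not at hc
  have e1 : ∀ x, ((univ.filter (fun r => A r x)).card : ℝ) = ∑ r, if A r x then 1 else 0 := by
    intro x
    rw [card_filter]; push_cast; rfl
  have h1 : ∑ x, ∑ y, (if S x ∧ ¬ S y then (Fintype.card R : ℝ) else 0) ≤
      ∑ x, ∑ y, (if S x ∧ ¬ S y then
        2 ^ q * (∑ r, ((if A r x then (1 : ℝ) else 0) - if A r y then 1 else 0)) else 0) := by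
    refine sum_le_sum (fun x _ => sum_le_sum (fun y _ => ?_))
    split_ifs with hxy
    · have := h x y hxy.1 hxy.2
      rw [e1, e1] at this
      rw [sum_sub_distrib, mul_sub]
      linarith
    · exact le_rfl
  have e2 : ∑ x, ∑ y, (if S x ∧ ¬ S y then (Fintype.card R : ℝ) else 0) =
      Fintype.card R * (((univ.filter (fun x => S x)).card : ℝ) *
        (univ.filter (fun x => ¬ S x)).card) := by
    have : ∀ x y, (if S x ∧ ¬ S y then (Fintype.card R : ℝ) else 0) =
        Fintype.card R * ((if S x then 1 else 0) * (if ¬ S y then 1 else 0)) := by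
      intro x y
      by_cases h1 : S x <;> by_cases h2 : S y <;> simp [h1, h2]
    simp_rw [this, ← mul_sum, ← sum_mul]
    rw [card_filter, card_filter]
    push_cast
    rfl
  have e3 : ∑ x, ∑ y, (if S x ∧ ¬ S y then
        2 ^ q * (∑ r, ((if A r x then (1 : ℝ) else 0) - if A r y then 1 else 0)) else 0) =
      ∑ r, 2 ^ q * (((univ.filter (fun x => ¬ S x)).card : ℝ) *
        (univ.filter (fun x => S x ∧ A r x)).card -
        (univ.filter (fun x => S x)).card * (univ.filter (fun x => ¬ S x ∧ A r x)).card) := by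
    have e4 : ∀ r, 2 ^ q * (((univ.filter (fun x => ¬ S x)).card : ℝ) *
        (univ.filter (fun x => S x ∧ A r x)).card -
        (univ.filter (fun x => S x)).card * (univ.filter (fun x => ¬ S x ∧ A r x)).card) =
        ∑ x, ∑ y, (if S x ∧ ¬ S y then
          2 ^ q * ((if A r x then (1 : ℝ) else 0) - if A r y then 1 else 0) else 0) := by
      intro r
      have : ∀ x y, (if S x ∧ ¬ S y then
          2 ^ q * ((if A r x then (1 : ℝ) else 0) - if A r y then 1 else 0) else 0) =
          2 ^ q * ((if S x ∧ A r x then 1 else 0) * (if ¬ S y then 1 else 0)) -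
          2 ^ q * ((if S x then 1 else 0) * (if ¬ S y ∧ A r y then 1 else 0)) := by
        intro x y
        by_cases h1 : S x <;> by_cases h2 : S y <;> by_cases h3 : A r x <;>
          by_cases h4 : A r y <;> simp [h1, h2, h3, h4]
      have e5 : ∀ F G : X → ℝ, ∑ x, ∑ y, 2 ^ q * (F x * G y) = 2 ^ q * ((∑ x, F x) * ∑ y, G y) := by
        intro F G
        rw [sum_mul_sum, mul_sum]
        exact sum_congr rfl (fun x _ => by rw [mul_sum])
      simp_rw [this, sum_sub_distrib]
      rw [e5 (fun x => if S x ∧ A r x then (1 : ℝ) else 0) (fun y => if ¬ S y then (1 : ℝ) else 0),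
        e5 (fun x => if S x then (1 : ℝ) else 0) (fun y => if ¬ S y ∧ A r y then (1 : ℝ) else 0),
        card_filter, card_filter, card_filter, card_filter]
      push_cast
      ring
    rw [sum_congr rfl (fun r _ => e4 r)]
    symm
    calc ∑ r, ∑ x, ∑ y, (if S x ∧ ¬ S y then
          (2 : ℝ) ^ q * ((if A r x then (1 : ℝ) else 0) - if A r y then 1 else 0) else 0) =
        ∑ x, ∑ r, ∑ y, (if S x ∧ ¬ S y then
          (2 : ℝ) ^ q * ((if A r x then (1 : ℝ) else 0) - if A r y then 1 else 0) else 0) :=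
          sum_comm
      _ = ∑ x, ∑ y, ∑ r, (if S x ∧ ¬ S y then
          (2 : ℝ) ^ q * ((if A r x then (1 : ℝ) else 0) - if A r y then 1 else 0) else 0) :=
          sum_congr rfl (fun x _ => sum_comm)
      _ = _ := by
          refine sum_congr rfl (fun x _ => sum_congr rfl (fun y _ => ?_))
          by_cases hxy : S x ∧ ¬ S y
          · simp only [if_pos hxy, mul_sum]
          · simp only [if_neg hxy, sum_const_zero]
  rw [e2, e3] at h1
  have h2 : ∑ r, 2 ^ q * (((univ.filter (fun x => ¬ S x)).card : ℝ) *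
        (univ.filter (fun x => S x ∧ A r x)).card -
        (univ.filter (fun x => S x)).card * (univ.filter (fun x => ¬ S x ∧ A r x)).card) <
      ∑ _r : R, ((univ.filter (fun x => S x)).card : ℝ) * (univ.filter (fun x => ¬ S x)).card :=
    sum_lt_sum_of_nonempty univ_nonempty (fun r _ => hc r)
  rw [sum_const, card_univ, nsmul_eq_mul] at h2
  linarith

/-- **The lower bound for the generalised inner product, two-sided error.** -/
theorem gip_two {κ : Type} [DecidableEq κ] [Fintype κ] (k : ℕ) (hk : Fintype.card κ ≤ k) :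
    ∃ a : ℕ, 1 ≤ a ∧ ∀ (N n q : ℕ) (R : Type) [Fintype R] [Nonempty R]
    (P : R → Prog κ (Fin (2 * k + 1) × Fin N)) (σ : ℝ), (σ = 1 ∨ σ = -1) → a ≤ N →
    (∀ b b' : Fin (2 * k + 1) → Fin N → Bool, gsign univ b = σ → gsign univ b' ≠ σ →
      Fintype.card R + 2 ^ q *
        (univ.filter (fun r => sim (P r) Prod.fst (unc b') n (sta₀ (P r) 0) = true)).card ≤
      2 ^ q * (univ.filter (fun r => sim (P r) Prod.fst (unc b) n (sta₀ (P r) 0) = true)).card) →
    ∃ r, N / a ≤ q + 3 + n * (3 * Nat.log 2 (Fintype.card (P r).State) + 5) := by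
  classical
  obtain ⟨a, ha, hmu⟩ := exists_half (2 * k)
  refine ⟨a, ha, ?_⟩
  intro N n q R _ _ P σ hσ haN hq
  obtain ⟨r, hr⟩ := average2 (fun b : Fin (2 * k + 1) → Fin N → Bool => gsign univ b = σ)
    (fun r b => sim (P r) Prod.fst (unc b) n (sta₀ (P r) 0) = true) q (by
      intro b b' h1 h2
      exact_mod_cast hq b b' h1 h2)
  refine ⟨r, ?_⟩
  have hμ0 := mu_nonneg (2 * k)
  have hμ1 := (mu_lt_one (2 * k)).le
  have hmuN : (mu (2 * k)) ^ N ≤ (1 / 2) ^ (N / a) := by
    calc (mu (2 * k)) ^ N ≤ (mu (2 * k)) ^ (a * (N / a)) :=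
          pow_le_pow_of_le_one hμ0 hμ1 (Nat.mul_div_le N a)
      _ = ((mu (2 * k)) ^ a) ^ (N / a) := by rw [pow_mul]
      _ ≤ (1 / 2) ^ (N / a) := pow_le_pow_left₀ (pow_nonneg hμ0 _) hmu _
  have hNa : 1 ≤ N / a := (Nat.one_le_div_iff (by omega)).2 haN
  obtain ⟨μ, hμ⟩ : ∃ μ, μ = (mu (2 * k)) ^ N := ⟨_, rfl⟩
  have hhalf : μ ≤ 1 / 2 := by
    calc μ ≤ (1 / 2) ^ (N / a) := by rw [hμ]; exact hmuN
      _ ≤ (1 / 2) ^ 1 := pow_le_pow_of_le_one (by norm_num) (by norm_num) hNa
      _ = 1 / 2 := by norm_num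
  have hμpos : 0 ≤ μ := by rw [hμ]; exact pow_nonneg hμ0 _
  obtain ⟨B, hB⟩ : ∃ B : ℝ, B = (2 ^ N : ℝ) ^ (2 * k + 1) := ⟨_, rfl⟩
  have hBpos : 0 < B := by rw [hB]; positivity
  obtain ⟨A, hA⟩ : ∃ A : Set (Fin (2 * k + 1) → Fin N → Bool),
    A = simSet (P r) n (sta₀ (P r) 0) := ⟨_, rfl⟩
  have hcA := sim_corr hk (P r) n (sta₀ (P r) 0) Set.univ isCyl_univ
  have hc1 := corr_cyl (isCyl_univ (g := 2 * k + 1) (N := N))
  rw [Set.univ_inter, ← hA, ← hμ, ← hB] at hcA
  rw [← hμ, ← hB] at hc1
  obtain ⟨Vn, hVn⟩ : ∃ Vn : ℝ,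
      Vn = (Fintype.card (Option (Out (P r).State (Fintype.card (P r).State))) : ℝ) ^ n :=
    ⟨_, rfl⟩
  rw [← hVn] at hcA
  have hV1 : (1 : ℝ) ≤ Vn := by
    rw [hVn]
    apply one_le_pow₀
    have : 1 ≤ Fintype.card (Option (Out (P r).State (Fintype.card (P r).State))) :=
      Fintype.card_pos_iff.2 ⟨none⟩
    exact_mod_cast this
  -- the four cardinalities
  have hpm : ∀ b : Fin (2 * k + 1) → Fin N → Bool, gsign univ b = 1 ∨ gsign univ b = -1 :=
    fun b => eq_or_eq_neg_of_abs_eq (gsign_abs univ b)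
  have e1 : ((univ.filter (fun b : Fin (2 * k + 1) → Fin N → Bool =>
      gsign univ b = σ)).card : ℝ) = (B + σ * corr (Set.univ :
        Set (Fin (2 * k + 1) → Fin N → Bool))) / 2 := by
    have h1 : ∀ b : Fin (2 * k + 1) → (Fin N → Bool),
        (if gsign Finset.univ b = σ then (1 : ℝ) else 0) = (1 + σ * gsign univ b) / 2 := by
      intro b
      rcases hpm b with h | h <;> rcases hσ with h' | h' <;> rw [h, h'] <;> norm_num
    rw [card_filter]
    push_cast
    simp_rw [h1]
    rw [← Finset.sum_div, sum_add_distrib, ← mul_sum, hB]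
    unfold corr
    simp
  have e2 : ((univ.filter (fun b : Fin (2 * k + 1) → Fin N → Bool =>
      ¬ gsign univ b = σ)).card : ℝ) = (B - σ * corr (Set.univ :
        Set (Fin (2 * k + 1) → Fin N → Bool))) / 2 := by
    have h1 : ∀ b : Fin (2 * k + 1) → (Fin N → Bool),
        (if ¬ gsign Finset.univ b = σ then (1 : ℝ) else 0) = (1 - σ * gsign univ b) / 2 := by
      intro b
      rcases hpm b with h | h <;> rcases hσ with h' | h' <;> rw [h, h'] <;> norm_num
    rw [card_filter]
    push_cast
    simp_rw [h1]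
    rw [← Finset.sum_div, sum_sub_distrib, ← mul_sum, hB]
    unfold corr
    simp
  obtain ⟨α, hα⟩ : ∃ α : ℝ, α = ∑ b : Fin (2 * k + 1) → Fin N → Bool,
    (if b ∈ A then (1 : ℝ) else 0) := ⟨_, rfl⟩
  have hαB : α ≤ B := by
    rw [hα, hB]
    calc _ ≤ ∑ _b : Fin (2 * k + 1) → Fin N → Bool, (1 : ℝ) :=
          sum_le_sum (fun b _ => by split_ifs <;> norm_num)
      _ = _ := by simp
  have hα0 : 0 ≤ α := by
    rw [hα]; exact sum_nonneg (fun b _ => by split_ifs <;> norm_num)
  have e3 : ((univ.filter (fun b : Fin (2 * k + 1) → Fin N → Bool =>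
      gsign univ b = σ ∧ sim (P r) Prod.fst (unc b) n (sta₀ (P r) 0) = true)).card : ℝ) =
      (α + σ * corr A) / 2 := by
    have h1 : ∀ b : Fin (2 * k + 1) → (Fin N → Bool),
        (if gsign Finset.univ b = σ ∧ sim (P r) Prod.fst (unc b) n (sta₀ (P r) 0) = true
          then (1 : ℝ) else 0) =
        ((if b ∈ A then 1 else 0) + σ * (gsign univ b * (if b ∈ A then 1 else 0))) / 2 := by
      intro b
      have h2 : b ∈ A ↔ sim (P r) Prod.fst (unc b) n (sta₀ (P r) 0) = true := by
        rw [hA]; exact Iff.rfl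
      by_cases h3 : b ∈ A
      · rw [if_pos h3]
        rcases hpm b with h | h <;> rcases hσ with h' | h' <;>
          simp only [h, h', h2.1 h3, and_true] <;> norm_num
      · rw [if_neg h3, if_neg (fun h => h3 (h2.2 h.2))]
        norm_num
    rw [card_filter]
    push_cast
    simp_rw [h1]
    rw [← Finset.sum_div, sum_add_distrib, ← mul_sum, hα]
    rfl
  have e4 : ((univ.filter (fun b : Fin (2 * k + 1) → Fin N → Bool =>
      ¬ gsign univ b = σ ∧ sim (P r) Prod.fst (unc b) n (sta₀ (P r) 0) = true)).card : ℝ) =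
      (α - σ * corr A) / 2 := by
    have h1 : ∀ b : Fin (2 * k + 1) → (Fin N → Bool),
        (if ¬ gsign Finset.univ b = σ ∧ sim (P r) Prod.fst (unc b) n (sta₀ (P r) 0) = true
          then (1 : ℝ) else 0) =
        ((if b ∈ A then 1 else 0) - σ * (gsign univ b * (if b ∈ A then 1 else 0))) / 2 := by
      intro b
      have h2 : b ∈ A ↔ sim (P r) Prod.fst (unc b) n (sta₀ (P r) 0) = true := by
        rw [hA]; exact Iff.rfl
      by_cases h3 : b ∈ A
      · rw [if_pos h3]
        rcases hpm b with h | h <;> rcases hσ with h' | h' <;>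
          simp only [h, h', h2.1 h3, and_true] <;> norm_num
      · rw [if_neg h3, if_neg (fun h => h3 (h2.2 h.2))]
        norm_num
    rw [card_filter]
    push_cast
    simp_rw [h1]
    rw [← Finset.sum_div, sum_sub_distrib, ← mul_sum, hα]
    rfl
  rw [e1, e2, e3, e4] at hr
  obtain ⟨c, hc⟩ : ∃ c : ℝ, c = σ * corr A := ⟨_, rfl⟩
  obtain ⟨δ, hδ⟩ : ∃ δ : ℝ, δ = σ * corr (Set.univ :
        Set (Fin (2 * k + 1) → Fin N → Bool)) := ⟨_, rfl⟩
  have hσ1 : |σ| = 1 := by rcases hσ with h | h <;> rw [h] <;> norm_num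
  have hc' : |c| ≤ Vn * (B * μ) := by rw [hc, abs_mul, hσ1, one_mul]; exact hcA
  have hδ' : |δ| ≤ B * μ := by rw [hδ, abs_mul, hσ1, one_mul]; exact hc1
  rw [← hc, ← hδ] at hr
  have h1 : (B + δ) / 2 * ((B - δ) / 2) ≤ 2 ^ q * ((B * c - δ * α) / 2) := by
    calc _ ≤ _ := hr
      _ = _ := by ring
  have h2 : B * c ≤ B * (Vn * (B * μ)) :=
    mul_le_mul_of_nonneg_left ((le_abs_self c).trans hc') hBpos.le
  have h3 : -(δ * α) ≤ B * μ * B := by
    calc -(δ * α) ≤ |δ * α| := neg_le_abs _
      _ = |δ| * α := by rw [abs_mul, abs_of_nonneg hα0]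
      _ ≤ B * μ * B := mul_le_mul hδ' hαB hα0 (by positivity)
  have h4 : B * B * (3 / 16) ≤ (B + δ) / 2 * ((B - δ) / 2) := by
    have h5 : δ ^ 2 ≤ (B / 2) ^ 2 := by
      rw [← sq_abs δ]
      apply pow_le_pow_left₀ (abs_nonneg _)
      calc |δ| ≤ B * μ := hδ'
        _ ≤ B * (1 / 2) := mul_le_mul_of_nonneg_left hhalf hBpos.le
        _ = B / 2 := by ring
    nlinarith
  have h5 : B * B * (3 / 16) ≤ B * B * (2 ^ q * (Vn * μ)) := by
    have h6 : (2 : ℝ) ^ q * ((B * c - δ * α) / 2) ≤ 2 ^ q * ((B * (Vn * (B * μ)) + B * μ * B) / 2) := by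
      apply mul_le_mul_of_nonneg_left _ (by positivity)
      linarith
    have h7 : B * (Vn * (B * μ)) + B * μ * B ≤ 2 * (B * B * (Vn * μ)) := by
      have : B * μ * B ≤ B * B * (Vn * μ) := by
        have : 0 ≤ B * B * μ := by positivity
        nlinarith
      nlinarith
    calc B * B * (3 / 16) ≤ (B + δ) / 2 * ((B - δ) / 2) := h4
      _ ≤ 2 ^ q * ((B * c - δ * α) / 2) := h1
      _ ≤ 2 ^ q * ((B * (Vn * (B * μ)) + B * μ * B) / 2) := h6
      _ ≤ 2 ^ q * ((2 * (B * B * (Vn * μ))) / 2) := by gcongr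
      _ = _ := by ring
  have h6 : (3 / 16 : ℝ) ≤ 2 ^ q * (Vn * μ) := le_of_mul_le_mul_left h5 (by positivity)
  have hF : Fintype.card (Option (Out (P r).State (Fintype.card (P r).State))) ≤
      2 ^ (3 * Nat.log 2 (Fintype.card (P r).State) + 5) :=
    (out_card).trans (out_bound (Fintype.card_pos_iff.2 ⟨(P r).start⟩))
  obtain ⟨E, hE⟩ : ∃ E, E = 3 * Nat.log 2 (Fintype.card (P r).State) + 5 := ⟨_, rfl⟩
  rw [← hE] at hF ⊢
  have hVE : Vn ≤ (2 : ℝ) ^ (n * E) := by
    have hF' : (Fintype.card (Option (Out (P r).State (Fintype.card (P r).State))) : ℝ) ≤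
        2 ^ E := by exact_mod_cast hF
    calc Vn ≤ ((2 : ℝ) ^ E) ^ n := by
          rw [hVn]
          exact pow_le_pow_left₀ (by positivity) hF' n
      _ = (2 : ℝ) ^ (n * E) := by rw [← pow_mul, mul_comm E n]
  have h7 : (2 : ℝ) ^ (N / a) < 2 ^ (q + 3 + n * E) := by
    have h8 : (1 / 2 : ℝ) ^ (N / a) * 2 ^ (N / a) = 1 := by
      rw [← mul_pow]; norm_num
    have h9 : (3 / 16 : ℝ) * 2 ^ (N / a) ≤ 2 ^ (q + n * E) := by
      calc (3 / 16 : ℝ) * 2 ^ (N / a) ≤ 2 ^ q * (Vn * μ) * 2 ^ (N / a) := by gcongr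
        _ ≤ 2 ^ q * (2 ^ (n * E) * (1 / 2) ^ (N / a)) * 2 ^ (N / a) := by
            have : Vn * μ ≤ 2 ^ (n * E) * (1 / 2) ^ (N / a) :=
              mul_le_mul hVE (by rw [hμ]; exact hmuN) hμpos (by positivity)
            gcongr
        _ = 2 ^ (q + n * E) * ((1 / 2 : ℝ) ^ (N / a) * 2 ^ (N / a)) := by
            rw [pow_add]; ring
        _ = _ := by rw [h8, mul_one]
    have h10 : (2 : ℝ) ^ (q + 3 + n * E) = 8 * 2 ^ (q + n * E) := by
      rw [show q + 3 + n * E = (q + n * E) + 3 by ring, pow_add]; ring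
    rw [h10]
    have h11 : (0 : ℝ) < 2 ^ (q + n * E) := by positivity
    linarith
  exact ((pow_lt_pow_iff_right₀ (show (1 : ℝ) < 2 by norm_num)).1 h7).le

end Pool.Agent.W896.TS
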