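import Pool.Agent.W896.TS.Main

/-!
# Two-sided error: 3-SAT
-/

set_option autoImplicit false

open Finset

namespace Pool.Agent.W896.TS

open Pool.Agent.H554R2.Cnf Pool.Agent.H541R2 Pool.Agent.W896.HP

theorem final (k : ℕ) : ∃ D : ℕ, 0 < D ∧ ∀ (M ℓ T : ℕ), M ≤ 2 ^ ℓ →
    ∀ (Q : (Idx M ℓ → Bool) → Prop), (Q = Sat3 ∨ Q = fun w => ¬ Sat3 w) →
    ∀ (R : Type) [Fintype R] [Nonempty R] (U : R → Prog (Fin k) (Idx M ℓ)),
      (∀ r, Det (U r)) →
      (∀ w w', Q w → ¬ Q w' → Nat.card R + 2 ^ (M / D) * Nat.card {r // ∃ l, (U r).Acc w' l} ≤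
        2 ^ (M / D) *
          Nat.card {r // ∃ l, (U r).Acc w l ∧ travel (fun v => v.1.val) l ≤ T}) →
      ∃ r, M * M ≤ D * ((T + M) * (Nat.log 2 (Fintype.card (U r).State) + 1)) := by
  classical
  obtain ⟨a, ha, hgip⟩ := gip_two (κ := Fin k) k (by rw [Fintype.card_fin])
  obtain ⟨K, hKe⟩ : ∃ K, K = 2 * k + 1 := ⟨_, rfl⟩
  obtain ⟨D1, hD1⟩ : ∃ D1, D1 = 5 * K + 6 := ⟨_, rfl⟩
  obtain ⟨D, hD⟩ : ∃ D, D = 16 * K * (D1 * a) * (2 + (3 * k + 3) * (4 * k + 8)) := ⟨_, rfl⟩
  have hD2 : 1 ≤ D1 * a := Nat.mul_pos (by omega) (by omega)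
  have hbig : 16 * K * (D1 * a) ≤ D := by
    rw [hD]
    exact Nat.le_mul_of_pos_right _ (by omega)
  have hDD : D1 * a ≤ D := by nlinarith
  refine ⟨D, by omega, ?_⟩
  intro M ℓ T hℓ Q hQ R _ _ U hdet hl
  rcases Nat.lt_or_ge M D with hMD | hMD
  · obtain ⟨r⟩ := (inferInstance : Nonempty R)
    refine ⟨r, ?_⟩
    calc M * M ≤ D * M := Nat.mul_le_mul_right _ hMD.le
      _ ≤ D * ((T + M) * (Nat.log 2 (Fintype.card (U r).State) + 1)) := by
          apply Nat.mul_le_mul_left
          calc M ≤ (T + M) * 1 := by omega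
            _ ≤ _ := Nat.mul_le_mul_left _ (by omega)
  · obtain ⟨L, hL⟩ : ∃ L, L = M / (2 * K) := ⟨_, rfl⟩
    obtain ⟨N, hN⟩ : ∃ N, N = M / D1 := ⟨_, rfl⟩
    have hNa : a ≤ N := by
      rw [hN, Nat.le_div_iff_mul_le (by omega), mul_comm]
      exact hDD.trans hMD
    have hN1 : 1 ≤ N := by omega
    have hND : N * D1 ≤ M := by rw [hN]; exact Nat.div_mul_le_self _ _
    have hNL : N ≤ L := by
      rw [hN, hL]
      exact Nat.div_le_div_left (by omega) (by omega)
    have hLK : 2 * K * L ≤ M := by rw [hL]; exact Nat.mul_div_le _ _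
    have hcap : K * N + 2 + 4 * (N * (K + 1)) ≤ M := by
      have : N * D1 = K * N + 4 * (N * (K + 1)) + 2 * N := by rw [hD1]; ring
      omega
    -- the positions
    have hlt : ∀ i : Fin K × Fin N, i.1.val * (2 * L) + i.2.val < M := by
      rintro ⟨f, j⟩
      have h1 := f.isLt
      have h2 := j.isLt
      simp only
      have h3 : (f.val + 1) * (2 * L) ≤ K * (2 * L) := Nat.mul_le_mul_right _ h1
      have h4 : (f.val + 1) * (2 * L) = f.val * (2 * L) + 2 * L := by ring
      have h5 : K * (2 * L) = 2 * K * L := by ring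
      omega
    have hsep : ∀ i j : Fin K × Fin N, i.1 ≠ j.1 → L ≤
        Nat.dist (i.1.val * (2 * L) + i.2.val) (j.1.val * (2 * L) + j.2.val) := by
      rintro ⟨f, s⟩ ⟨f', s'⟩ hff
      have h1 := s.isLt
      have h2 := s'.isLt
      simp only at hff ⊢
      have hne : f.val ≠ f'.val := fun h => hff (Fin.ext h)
      rcases Nat.lt_or_ge f.val f'.val with h3 | h3
      · have h4 : (f.val + 1) * (2 * L) ≤ f'.val * (2 * L) := Nat.mul_le_mul_right _ h3
        have h5 : (f.val + 1) * (2 * L) = f.val * (2 * L) + 2 * L := by ring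
        rw [Nat.dist_eq_sub_of_le (by omega)]
        omega
      · have h3' : f'.val + 1 ≤ f.val := by omega
        have h4 : (f'.val + 1) * (2 * L) ≤ f.val * (2 * L) := Nat.mul_le_mul_right _ h3'
        have h5 : (f'.val + 1) * (2 * L) = f'.val * (2 * L) + 2 * L := by ring
        rw [Nat.dist_eq_sub_of_le_right (by omega)]
        omega
    obtain ⟨e₀, he₀⟩ : ∃ e₀ : Fin K × Fin N ↪ Fin M,
        ∀ i, (e₀ i).val = i.1.val * (2 * L) + i.2.val := by
      refine ⟨⟨fun i => ⟨i.1.val * (2 * L) + i.2.val, hlt i⟩, ?_⟩, fun i => rfl⟩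
      intro i j hij
      have h1 : i.1.val * (2 * L) + i.2.val = j.1.val * (2 * L) + j.2.val := by
        simpa using hij
      by_cases h2 : i.1 = j.1
      · rw [h2] at h1
        exact Prod.ext h2 (Fin.ext (by omega))
      · have h3 := hsep i j h2
        rw [h1, Nat.dist_self] at h3
        omega
    -- the instance
    obtain ⟨b, τ, hb⟩ : ∃ (b : Idx M ℓ → Bool) (τ : Bool), ∀ x : Fin K × Fin N → Bool,
        Q (fill (fun i => (sgn ℓ (e₀ i) : Idx M ℓ)) b x) ↔
        decide (Odd (univ.filter (fun j : Fin N => ∀ i, x (i, j) = true)).card) = τ := by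
      obtain ⟨b, hb⟩ := gip_sat (by omega) hN1 e₀ hcap (hcap.trans hℓ) true
      rcases hQ with rfl | rfl
      · exact ⟨b, true, hb⟩
      · refine ⟨b, false, fun x => ?_⟩
        simp only [hb x, Bool.not_eq_true]
    subst hKe
    set p : Fin (2 * k + 1) × Fin N → Idx M ℓ := fun i => sgn ℓ (e₀ i) with hp
    have hpinj : Function.Injective p := by
      intro i j hij
      have h1 : (p i).1 = (p j).1 := congrArg Prod.fst hij
      exact e₀.injective h1
    obtain ⟨σ, hσ, hσ'⟩ : ∃ σ : ℝ, (σ = 1 ∨ σ = -1) ∧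
        ∀ b' : Fin (2 * k + 1) → Fin N → Bool, Q (fill p b (unc b')) ↔ gsign univ b' = σ := by
      refine ⟨if τ then -1 else 1, by cases τ <;> simp, fun b' => ?_⟩
      rw [hb (unc b'), gsign_eq]
      have e : (univ.filter (fun j : Fin N => ∀ i, unc b' (i, j) = true)) =
          univ.filter (fun j : Fin N => ∀ i, b' i j = true) := rfl
      rw [e]
      by_cases ho : Odd (univ.filter (fun j : Fin N => ∀ i, b' i j = true)).card
      · cases τ
        · simp only [ho, decide_true, if_true]; norm_num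
        · simp [ho]
      · cases τ
        · simp [ho]
        · simp only [ho, decide_false, if_false, if_true]; norm_num
    have hsep' : ∀ i j : Fin (2 * k + 1) × Fin N, i.1 ≠ j.1 →
        L ≤ Nat.dist (p i).1.val (p j).1.val := by
      intro i j hij
      have := hsep i j hij
      change L ≤ Nat.dist (e₀ i).val (e₀ j).val
      rw [he₀, he₀]
      exact this
    have hLpos : 0 < L := by omega
    obtain ⟨r, key⟩ := hgip N (2 * (T / L + k) + 1) (M / D) R (fun r => fixP p b (U r)) σ hσ hNa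
      (by
        intro b₁ b₂ h1 h2
        have h3 := hl (fill p b (unc b₁)) (fill p b (unc b₂)) ((hσ' b₁).2 h1)
          (fun h => h2 ((hσ' b₂).1 h))
        rw [Nat.card_eq_fintype_card, Nat.card_eq_fintype_card, Nat.card_eq_fintype_card,
          Fintype.card_subtype, Fintype.card_subtype] at h3
        refine (Nat.add_le_add_left (Nat.mul_le_mul_left _ (card_le_card ?_)) _).trans
          (h3.trans (Nat.mul_le_mul_left _ (card_le_card ?_)))
        · intro r hr
          rw [mem_filter] at hr ⊢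
          refine ⟨mem_univ _, ?_⟩
          obtain ⟨l, h4⟩ := sim_acc (fixP_det (hdet r)) hr.2
          exact fixP_sound h4
        · intro r hr
          rw [mem_filter] at hr ⊢
          refine ⟨mem_univ _, ?_⟩
          obtain ⟨l, h4, h5⟩ := hr.2
          have h6 : (fixP p b (U r)).Acc (unc b₁) (sub p l) := fixP_complete h4
          refine acc_sim (fixP_det (hdet r)) h6 ?_
          have h7 := phs_le' (κ := Fin k)
            (Prod.fst : Fin (2 * k + 1) × Fin N → Fin (2 * k + 1)) (fun i => (p i).1.val) L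
            hsep' (sub p l) (fun _ => 0)
          have h8 := travel_sub p (fun v : Idx M ℓ => v.1.val) l
          rw [Fintype.card_fin] at h7
          have h9 : phs Prod.fst (fun _ => 0) (sub p l) * L ≤ T + k * L := by
            refine h7.trans ?_
            have : travel (fun i => (p i).1.val) (sub p l) ≤ T := h8.trans h5
            omega
          have h10 : phs Prod.fst (fun _ => 0) (sub p l) ≤ (T + k * L) / L :=
            (Nat.le_div_iff_mul_le hLpos).2 h9
          rwa [Nat.add_mul_div_right _ _ hLpos] at h10)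
    refine ⟨r, ?_⟩
    have hNa' : N / a = M / (D1 * a) := by rw [hN, Nat.div_div_eq_div_mul]
    rw [hNa'] at key
    refine arith (c1 := 4 * k + 8) (by omega) hD2 hD hMD hL (key.trans ?_)
    obtain ⟨lg, hlg⟩ : ∃ lg, lg = Nat.log 2 (Fintype.card (U r).State) := ⟨_, rfl⟩
    have hlg' : Nat.log 2 (Fintype.card (fixP (κ := Fin k) p b (U r)).State) = lg := hlg.symm
    rw [hlg', ← hlg]
    obtain ⟨m, hm⟩ : ∃ m, m = T / L + k := ⟨_, rfl⟩
    rw [← hm]
    have h1 : (2 * m + 1) * (3 * lg + 5) + 1 ≤ (3 * m + 1) * ((4 * k + 8) * (lg + 1)) := by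
      calc (2 * m + 1) * (3 * lg + 5) + 1 ≤ (3 * m + 1) * (8 * (lg + 1)) := by nlinarith
        _ ≤ (3 * m + 1) * ((4 * k + 8) * (lg + 1)) := by gcongr; omega
    omega

end Pool.Agent.W896.TS
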