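import Pool.Agent.W896.TS.Step

/-!
# The simulation of a deterministic program with a stack, phase by phase
-/

set_option autoImplicit false

namespace Pool.Agent.W896.TS

open Pool.Agent.W896.HP

variable {κ ι C : Type}

/-- The description of a part of the stack: the upper part, without the first `t` symbols, of what
is on the stack when the phase `cur` ends which began in the node `q`. -/
structure Seg (κ C S : Type) where
  cur : κ → C
  q : S
  t : ℕ

/-- `σ` is the part of the stack that is described. -/
def IsSeg (P : Prog κ ι) (χ : ι → C) (x : ι → Bool) (D : Seg κ C P.State) (σ : List P.Sym) :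
    Prop :=
  ∃ p w, Rch P χ D.cur x (D.q, []) (p, w) ∧ PEnd P χ D.cur p ∧ σ = w.drop D.t

/-- `σ` is the uppermost part, if there is one. -/
def IsTop (P : Prog κ ι) (χ : ι → C) (x : ι → Bool) : Option (Seg κ C P.State) →
    List P.Sym → Prop
  | none, σ => σ = []
  | some D, σ => IsSeg P χ x D σ

/-- The contents of the stack. -/
inductive IsStack (P : Prog κ ι) (χ : ι → C) (x : ι → Bool) :
    List (Seg κ C P.State) → List P.Sym → Prop
  | nil : IsStack P χ x [] []
  | cons {D : Seg κ C P.State} {L : List (Seg κ C P.State)} {σ τ : List P.Sym}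
      (h : IsSeg P χ x D σ) (r : IsStack P χ x L τ) : IsStack P χ x (D :: L) (σ ++ τ)

/-- What may happen: acceptance; the uppermost part of the stack is used up in the node `p`; the
phase ends in the node `p`, after `t` symbols of the uppermost part were removed and new symbols
were produced from the node `q'`. -/
inductive Out (S : Type) (n : ℕ) where
  | acc
  | exh (p : S)
  | fin (p : S) (t : Fin n) (q' : S)

/-- The state of the simulation. -/
structure Sta (κ C S : Type) where
  cur : κ → C
  q : S
  segs : List (Seg κ C S)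

/-- This happens next. -/
def Holds (P : Prog κ ι) (χ : ι → C) (x : ι → Bool) (Z : Sta κ C P.State) :
    Out P.State (Fintype.card P.State) → Prop
  | .acc => ∃ σ, IsTop P χ x Z.segs.head? σ ∧ ∃ p w, Rch P χ Z.cur x (Z.q, σ) (p, w) ∧
      P.act p = Act.accept
  | .exh p => ∃ σ, IsTop P χ x Z.segs.head? σ ∧ Rch P χ Z.cur x (Z.q, σ) (p, []) ∧
      ∃ nxt, P.act p = Act.pop nxt
  | .fin p t q' => ∃ σ, IsTop P χ x Z.segs.head? σ ∧
      Rch P χ Z.cur x (Z.q, σ) (q', σ.drop t.val) ∧
      ∃ u, Rch P χ Z.cur x (q', []) (p, u) ∧ PEnd P χ Z.cur p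

/-- The positions of the heads in the next phase. -/
def ncur [DecidableEq κ] (P : Prog κ ι) (χ : ι → C) (cur : κ → C) (p : P.State) : κ → C :=
  match P.act p with
  | .query h i _ => Function.update cur h (χ i)
  | _ => cur

/-- The uppermost part without `t` further symbols. -/
def dropTop {S : Type} (t : ℕ) : List (Seg κ C S) → List (Seg κ C S)
  | [] => []
  | D :: L => ⟨D.cur, D.q, D.t + t⟩ :: L

/-- The next state of the simulation. -/
def next [DecidableEq κ] (P : Prog κ ι) (χ : ι → C) (Z : Sta κ C P.State) :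
    Out P.State (Fintype.card P.State) → Sta κ C P.State
  | .acc => Z
  | .exh p => ⟨Z.cur, p, Z.segs.tail⟩
  | .fin p t q' => ⟨ncur P χ Z.cur p, p, ⟨Z.cur, q', 0⟩ :: dropTop t.val Z.segs⟩

open Classical in
/-- What happens next. -/
noncomputable def out (P : Prog κ ι) (χ : ι → C) (x : ι → Bool) (Z : Sta κ C P.State) :
    Option (Out P.State (Fintype.card P.State)) :=
  if h : ∃ o, Holds P χ x Z o then some h.choose else none

/-- The simulation. -/
noncomputable def sim [DecidableEq κ] (P : Prog κ ι) (χ : ι → C) (x : ι → Bool) :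
    ℕ → Sta κ C P.State → Bool
  | 0, _ => false
  | n + 1, Z => match out P χ x Z with
    | none => false
    | some .acc => true
    | some (.exh p) => sim P χ x n (next P χ Z (.exh p))
    | some (.fin p t q') => sim P χ x n (next P χ Z (.fin p t q'))

variable {P : Prog κ ι} {χ : ι → C} {x y : ι → Bool}

theorem out_spec {Z : Sta κ C P.State} {o : Out P.State (Fintype.card P.State)}
    (h : out P χ x Z = some o) : Holds P χ x Z o := by
  classical
  unfold out at h
  split_ifs at h with h1
  rw [Option.some.injEq] at h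
  rw [← h]
  exact h1.choose_spec

theorem out_none {Z : Sta κ C P.State} (h : out P χ x Z = none)
    (o : Out P.State (Fintype.card P.State)) : ¬ Holds P χ x Z o := by
  classical
  unfold out at h
  split_ifs at h with h1
  exact fun ho => h1 ⟨o, ho⟩

theorem IsSeg.dep {D : Seg κ C P.State} {σ : List P.Sym} (h : IsSeg P χ x D σ)
    (hxy : ∀ i, χ i ∈ Set.range D.cur → x i = y i) : IsSeg P χ y D σ := by
  obtain ⟨p, w, h1, h2, h3⟩ := h
  exact ⟨p, w, h1.dep hxy, h2, h3⟩

/-- The files on which the next event depends. -/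
def files {S : Type} (Z : Sta κ C S) : Set C :=
  Set.range Z.cur ∪ (match Z.segs.head? with
    | none => ∅
    | some D => Set.range D.cur)

theorem Holds.dep {Z : Sta κ C P.State} {o : Out P.State (Fintype.card P.State)}
    (h : Holds P χ x Z o) (hxy : ∀ i, χ i ∈ files Z → x i = y i) : Holds P χ y Z o := by
  have h1 : ∀ i, χ i ∈ Set.range Z.cur → x i = y i := fun i hi => hxy i (Or.inl hi)
  have h2 : ∀ σ, IsTop P χ x Z.segs.head? σ → IsTop P χ y Z.segs.head? σ := by
    intro σ hσ
    unfold files at hxy
    cases hh : Z.segs.head? with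
    | none => rw [hh] at hσ; exact hσ
    | some D =>
      rw [hh] at hσ hxy
      exact IsSeg.dep hσ (fun i hi => hxy i (Or.inr hi))
  cases o with
  | acc =>
    obtain ⟨σ, h3, p, w, h4, h5⟩ := h
    exact ⟨σ, h2 σ h3, p, w, h4.dep h1, h5⟩
  | exh p =>
    obtain ⟨σ, h3, h4, h5⟩ := h
    exact ⟨σ, h2 σ h3, h4.dep h1, h5⟩
  | fin p t q' =>
    obtain ⟨σ, h3, h4, u, h5, h6⟩ := h
    exact ⟨σ, h2 σ h3, h4.dep h1, u, h5.dep h1, h6⟩

theorem out_dep {Z : Sta κ C P.State} (hxy : ∀ i, χ i ∈ files Z → x i = y i) :
    out P χ x Z = out P χ y Z := by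
  classical
  have h : (fun o => Holds P χ x Z o) = fun o => Holds P χ y Z o := by
    funext o
    exact propext ⟨fun h => h.dep hxy, fun h => h.dep (fun i hi => (hxy i hi).symm)⟩
  have h' : ∀ F G : Out P.State (Fintype.card P.State) → Prop, F = G →
      (if h : ∃ o, F o then some h.choose else none) =
      if h : ∃ o, G o then some h.choose else none := by
    rintro F G rfl; rfl
  exact h' _ _ h

theorem IsSeg.unique (hP : Det P) {D : Seg κ C P.State} {σ σ' : List P.Sym}
    (h : IsSeg P χ x D σ) (h' : IsSeg P χ x D σ') : σ = σ' := by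
  obtain ⟨p, w, h1, h2, h3⟩ := h
  obtain ⟨p', w', h1', h2', h3'⟩ := h'
  have := h1.fin_unique hP (h2.fin0 _) h1' (h2'.fin0 _)
  rw [Prod.mk.injEq] at this
  rw [h3, h3', this.2]

theorem IsSeg.length (hP : Det P) {D : Seg κ C P.State} {σ : List P.Sym}
    (h : IsSeg P χ x D σ) : σ.length < Fintype.card P.State := by
  obtain ⟨p, w, h1, h2, h3⟩ := h
  have := h1.height hP h2
  rw [h3, List.length_drop]
  omega

theorem IsSeg.dropTop {D : Seg κ C P.State} {σ : List P.Sym}
    (h : IsSeg P χ x D σ) (t : ℕ) : IsSeg P χ x ⟨D.cur, D.q, D.t + t⟩ (σ.drop t) := by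
  obtain ⟨p, w, h1, h2, h3⟩ := h
  exact ⟨p, w, h1, h2, by rw [h3, List.drop_drop]⟩

/-- The uppermost part of the stack. -/
theorem IsStack.top {L : List (Seg κ C P.State)} {ρ : List P.Sym} (h : IsStack P χ x L ρ) :
    ∃ σ τ, ρ = σ ++ τ ∧ IsTop P χ x L.head? σ ∧ IsStack P χ x L.tail τ ∧
      ∀ t, IsStack P χ x (dropTop t L) (σ.drop t ++ τ) := by
  cases h with
  | nil => exact ⟨[], [], rfl, rfl, IsStack.nil, fun t => by
      rw [List.drop_nil]; exact IsStack.nil⟩
  | @cons D L σ τ h r => exact ⟨σ, τ, rfl, h, r, fun t => IsStack.cons (h.dropTop t) r⟩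

theorem IsTop.unique (hP : Det P) {D : Option (Seg κ C P.State)} {σ σ' : List P.Sym}
    (h : IsTop P χ x D σ) (h' : IsTop P χ x D σ') : σ = σ' := by
  cases D with
  | none => exact h.trans h'.symm
  | some D => exact IsSeg.unique hP h h'

/-- The next state of the simulation is reached by the program. -/
theorem next_track [DecidableEq κ] (hP : Det P) {Z : Sta κ C P.State} {ρ : List P.Sym}
    {o : Out P.State (Fintype.card P.State)} (h : IsStack P χ x Z.segs ρ)
    (ho : Holds P χ x Z o) (hacc : o ≠ .acc) : ∃ ρ', IsStack P χ x (next P χ Z o).segs ρ' ∧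
      Rch P χ Z.cur x (Z.q, ρ) ((next P χ Z o).q, ρ') := by
  obtain ⟨σ, τ, rfl, h1, h2, h3⟩ := h.top
  cases o with
  | acc => exact absurd rfl hacc
  | exh p =>
    obtain ⟨σ', h4, h5, h6⟩ := ho
    obtain rfl := h1.unique hP h4
    exact ⟨τ, h2, h5.shift τ⟩
  | fin p t q' =>
    obtain ⟨σ', h4, h5, u, h6, h7⟩ := ho
    obtain rfl := h1.unique hP h4
    refine ⟨u ++ (σ.drop t.val ++ τ), IsStack.cons ⟨p, u, h6, h7, rfl⟩ (h3 t.val), ?_⟩
    exact Relation.ReflTransGen.trans (h5.shift τ) (h6.shift (σ.drop t.val ++ τ))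

/-- **Soundness.** -/
theorem sim_sound [DecidableEq κ] (hP : Det P) : ∀ (n : ℕ) (Z : Sta κ C P.State)
    (ρ : List P.Sym), IsStack P χ x Z.segs ρ → sim P χ x n Z = true →
      ∃ l, P.Runs x Z.q ρ l := by
  intro n
  induction n with
  | zero => intro Z ρ _ h; simp [sim] at h
  | succ n ih =>
    intro Z ρ hZ h
    rw [sim] at h
    cases ho : out P χ x Z with
    | none => rw [ho] at h; simp at h
    | some o =>
      have hH := out_spec ho
      cases o with
      | acc =>
        obtain ⟨σ, τ, rfl, h1, h2, h3⟩ := hZ.top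
        obtain ⟨σ', h4, p, w, h5, h6⟩ := hH
        obtain rfl := h1.unique hP h4
        exact (h5.shift τ).back (Prog.Runs.accept h6)
      | exh p =>
        rw [ho] at h
        obtain ⟨ρ', h1, h2⟩ := next_track hP hZ hH (by simp)
        obtain ⟨l, h3⟩ := ih _ ρ' h1 h
        exact h2.back h3
      | fin p t q' =>
        rw [ho] at h
        obtain ⟨ρ', h1, h2⟩ := next_track hP hZ hH (by simp)
        obtain ⟨l, h3⟩ := ih _ ρ' h1 h
        exact h2.back h3

/-- Something happens. -/
theorem exists_holds (hP : Det P) {Z : Sta κ C P.State} {ρ : List P.Sym} {l : List (κ × ι)}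
    (h : IsStack P χ x Z.segs ρ) (r : P.Runs x Z.q ρ l) : ∃ o, Holds P χ x Z o := by
  obtain ⟨σ, τ, rfl, h1, h2, h3⟩ := h.top
  obtain ⟨p, w, h4, h5 | ⟨h5, h6⟩ | h5⟩ := exists_fin (χ := χ) (cur := Z.cur) r
  · exact ⟨.acc, σ, h1, p, w, h4, h5⟩
  · subst h5
    exact ⟨.exh p, σ, h1, h4, h6⟩
  · obtain ⟨t, q', u, h6, h7, h8, h9⟩ := h4.split
    have ht : t < Fintype.card P.State := by
      refine lt_of_le_of_lt h6 ?_
      cases hh : Z.segs.head? with
      | none =>
        rw [hh] at h1
        have h1' : σ = [] := h1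
        rw [h1']
        exact Fintype.card_pos_iff.2 ⟨P.start⟩
      | some D =>
        rw [hh] at h1
        exact IsSeg.length hP h1
    exact ⟨.fin p ⟨t, ht⟩ q', σ, h1, h7, u, h8, h5⟩

/-- **Completeness.** -/
theorem sim_complete [DecidableEq κ] [DecidableEq C] (hP : Det P) :
    ∀ (n : ℕ) (Z : Sta κ C P.State) (ρ : List P.Sym) (l : List (κ × ι)),
      IsStack P χ x Z.segs ρ → P.Runs x Z.q ρ l →
      2 * phs χ Z.cur l + Z.segs.length < n → sim P χ x n Z = true := by
  intro n
  induction n with
  | zero => intro Z ρ l _ _ h; omega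
  | succ n ih =>
    intro Z ρ l hZ hr hn
    rw [sim]
    cases ho : out P χ x Z with
    | none =>
      obtain ⟨o, h1⟩ := exists_holds hP hZ hr
      exact absurd h1 (out_none ho o)
    | some o =>
      have hH := out_spec ho
      cases o with
      | acc => rfl
      | exh p =>
        obtain ⟨ρ', h1, h2⟩ := next_track hP hZ hH (by simp)
        obtain ⟨l', h3, h4⟩ := h2.runs hP hr
        refine ih _ ρ' l' h1 h3 ?_
        change 2 * phs χ Z.cur l' + Z.segs.tail.length < n
        rw [h4, List.length_tail]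
        have h5 : Z.segs ≠ [] := by
          intro h5
          rw [h5] at hZ
          cases hZ
          obtain ⟨σ, h6, h7, nxt, h8⟩ := hH
          change P.Runs x p ρ' l' at h3
          change IsStack P χ x Z.segs.tail ρ' at h1
          rw [h5] at h1
          change IsStack P χ x [] ρ' at h1
          cases h1
          cases h3 with
          | accept h => rw [h8] at h; simp at h
          | query e _ => rw [h8] at e; simp at e
          | push e _ => rw [h8] at e; simp at e
          | choose e _ _ => rw [h8] at e; simp at e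
        have h6 := List.length_pos_iff.2 h5
        omega
      | fin p t q' =>
        obtain ⟨ρ', h1, h2⟩ := next_track hP hZ hH (by simp)
        obtain ⟨l', h3, h4⟩ := h2.runs hP hr
        refine ih _ ρ' l' h1 h3 ?_
        change 2 * phs χ (ncur P χ Z.cur p) l' + (dropTop t.val Z.segs).length.succ < n
        change P.Runs x p ρ' l' at h3
        have h5 : (dropTop t.val Z.segs).length = Z.segs.length := by
          cases Z.segs <;> rfl
        have h6 : phs χ Z.cur l' = phs χ (ncur P χ Z.cur p) l' + 1 := by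
          obtain ⟨σ, h6, h7, u, h8, h, i, nxt, h9, h10⟩ := hH
          cases h3 with
          | accept e => rw [h9] at e; simp at e
          | query e r =>
            rw [h9] at e
            injection e with a1 a2 a3
            subst a1; subst a2; subst a3
            have h11 : ncur P χ Z.cur p = Function.update Z.cur h (χ i) := by
              unfold ncur; rw [h9]
            rw [h11, phs, if_neg h10, phs, if_pos (by simp)]
          | push e _ => rw [h9] at e; simp at e
          | pop e _ => rw [h9] at e; simp at e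
          | choose e _ _ => rw [h9] at e; simp at e
        omega

/-- The beginning of the simulation. -/
def sta₀ (P : Prog κ ι) (c₀ : C) : Sta κ C P.State := ⟨fun _ => c₀, P.start, []⟩

theorem sim_acc [DecidableEq κ] (hP : Det P) {c₀ : C} {n : ℕ}
    (h : sim P χ x n (sta₀ P c₀) = true) : ∃ l, P.Acc x l :=
  sim_sound hP n _ [] IsStack.nil h

theorem acc_sim [DecidableEq κ] [DecidableEq C] (hP : Det P) {c₀ : C} {m : ℕ}
    {l : List (κ × ι)} (h : P.Acc x l) (hl : phs χ (fun _ => c₀) l ≤ m) :
    sim P χ x (2 * m + 1) (sta₀ P c₀) = true := by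
  refine sim_complete hP _ _ [] l IsStack.nil h ?_
  change 2 * phs χ (fun _ => c₀) l + 0 < _
  omega

end Pool.Agent.W896.TS
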