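import Pool.Agent.W896.HP.Fix

/-!
# Deterministic programs with a stack: the steps inside a phase
-/

set_option autoImplicit false

namespace Pool.Agent.W896.TS

open Pool.Agent.W896.HP

variable {κ ι C : Type}

/-- The program is deterministic: in no node there is a choice between two successors. -/
def Det (P : Prog κ ι) : Prop := ∀ q R, P.act q = Act.choose R → R.Subsingleton

/-- Configurations: a node and the contents of the stack. -/
abbrev Conf (P : Prog κ ι) := P.State × List P.Sym

/-- The steps in a phase: the head `h` reads the file `cur h` only. -/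
inductive St (P : Prog κ ι) (χ : ι → C) (cur : κ → C) (x : ι → Bool) :
    Conf P → Conf P → Prop
  | query {q : P.State} {σ : List P.Sym} {h : κ} {i : ι} {nxt : Bool → P.State}
      (e : P.act q = Act.query h i nxt) (hi : χ i = cur h) : St P χ cur x (q, σ) (nxt (x i), σ)
  | push {q q' : P.State} {σ : List P.Sym} {a : P.Sym} (e : P.act q = Act.push a q') :
      St P χ cur x (q, σ) (q', a :: σ)
  | pop {q : P.State} {σ : List P.Sym} {a : P.Sym} {nxt : P.Sym → P.State}
      (e : P.act q = Act.pop nxt) : St P χ cur x (q, a :: σ) (nxt a, σ)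
  | choose {q q' : P.State} {σ : List P.Sym} {R : Set P.State} (e : P.act q = Act.choose R)
      (hq : q' ∈ R) : St P χ cur x (q, σ) (q', σ)

/-- Several steps in a phase. -/
abbrev Rch (P : Prog κ ι) (χ : ι → C) (cur : κ → C) (x : ι → Bool) :
    Conf P → Conf P → Prop := Relation.ReflTransGen (St P χ cur x)

/-- In the node `p` the phase ends. -/
def PEnd (P : Prog κ ι) (χ : ι → C) (cur : κ → C) (p : P.State) : Prop :=
  ∃ h i nxt, P.act p = Act.query h i nxt ∧ χ i ≠ cur h

variable {P : Prog κ ι} {χ : ι → C} {cur : κ → C} {x : ι → Bool}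

theorem St.det (hP : Det P) {c c₁ c₂ : Conf P} (h₁ : St P χ cur x c c₁)
    (h₂ : St P χ cur x c c₂) : c₁ = c₂ := by
  cases h₁ with
  | query e hi =>
    cases h₂ with
    | query e' hi' =>
      rw [e] at e'
      injection e' with a1 a2 a3
      subst a2; subst a3; rfl
    | push e' => rw [e] at e'; simp at e'
    | pop e' => rw [e] at e'; simp at e'
    | choose e' _ => rw [e] at e'; simp at e'
  | push e =>
    cases h₂ with
    | query e' hi' => rw [e] at e'; simp at e'
    | push e' =>
      rw [e] at e'
      injection e' with a1 a2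
      subst a1; subst a2; rfl
    | pop e' => rw [e] at e'; simp at e'
    | choose e' _ => rw [e] at e'; simp at e'
  | pop e =>
    cases h₂ with
    | query e' hi' => rw [e] at e'; simp at e'
    | push e' => rw [e] at e'; simp at e'
    | pop e' =>
      rw [e] at e'
      injection e' with a1
      subst a1; rfl
    | choose e' _ => rw [e] at e'; simp at e'
  | choose e hq =>
    cases h₂ with
    | query e' hi' => rw [e] at e'; simp at e'
    | push e' => rw [e] at e'; simp at e'
    | pop e' => rw [e] at e'; simp at e'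
    | choose e' hq' =>
      rw [e] at e'
      injection e' with a1
      subst a1
      rw [hP _ _ e hq hq']

theorem St.dep {y : ι → Bool} {c c' : Conf P} (h : St P χ cur x c c')
    (hxy : ∀ i, χ i ∈ Set.range cur → x i = y i) : St P χ cur y c c' := by
  cases h with
  | query e hi =>
    rw [hxy _ ⟨_, hi.symm⟩]
    exact St.query e hi
  | push e => exact St.push e
  | pop e => exact St.pop e
  | choose e hq => exact St.choose e hq

theorem Rch.dep {y : ι → Bool} {c c' : Conf P} (h : Rch P χ cur x c c')
    (hxy : ∀ i, χ i ∈ Set.range cur → x i = y i) : Rch P χ cur y c c' := by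
  induction h with
  | refl => exact Relation.ReflTransGen.refl
  | tail _ h₂ ih => exact Relation.ReflTransGen.tail ih (h₂.dep hxy)

/-- Adding symbols below. -/
theorem St.shift {q q' : P.State} {σ σ' : List P.Sym} (h : St P χ cur x (q, σ) (q', σ'))
    (τ : List P.Sym) : St P χ cur x (q, σ ++ τ) (q', σ' ++ τ) := by
  cases h with
  | query e hi => exact St.query e hi
  | push e => exact St.push e
  | pop e => exact St.pop e
  | choose e hq => exact St.choose e hq

theorem Rch.shift {q q' : P.State} {σ σ' : List P.Sym} (h : Rch P χ cur x (q, σ) (q', σ'))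
    (τ : List P.Sym) : Rch P χ cur x (q, σ ++ τ) (q', σ' ++ τ) := by
  generalize hc : (q', σ') = c at h
  induction h generalizing q' σ' with
  | refl =>
    rw [Prod.mk.injEq] at hc
    obtain ⟨rfl, rfl⟩ := hc
    exact Relation.ReflTransGen.refl
  | @tail c₁ c₂ _ h₂ ih =>
    subst hc
    obtain ⟨q₁, σ₁⟩ := c₁
    exact Relation.ReflTransGen.tail (ih rfl) (h₂.shift τ)

/-- From the stack `σ` the computation goes down to `σ.drop t` in the node `q'` and puts `u` on
it. -/
theorem Rch.split {q p : P.State} {σ w : List P.Sym} (h : Rch P χ cur x (q, σ) (p, w)) :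
    ∃ t q' u, t ≤ σ.length ∧ Rch P χ cur x (q, σ) (q', σ.drop t) ∧
      Rch P χ cur x (q', []) (p, u) ∧ w = u ++ σ.drop t := by
  generalize hc : (p, w) = c at h
  induction h generalizing p w with
  | refl =>
    rw [Prod.mk.injEq] at hc
    obtain ⟨rfl, rfl⟩ := hc
    exact ⟨0, p, [], Nat.zero_le _, Relation.ReflTransGen.refl, Relation.ReflTransGen.refl,
      by simp⟩
  | @tail c₁ c₂ h₁ h₂ ih =>
    subst hc
    obtain ⟨p₁, w₁⟩ := c₁
    obtain ⟨t, q', u, h3, h4, h5, h6⟩ := ih rfl
    cases h₂ with
    | query e hi =>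
      exact ⟨t, q', u, h3, h4, Relation.ReflTransGen.tail h5 (St.query e hi), h6⟩
    | @push _ _ _ a e =>
      exact ⟨t, q', a :: u, h3, h4, Relation.ReflTransGen.tail h5 (St.push e),
        by rw [h6, List.cons_append]⟩
    | @pop _ _ a nxt e =>
      cases u with
      | nil =>
        rw [List.nil_append] at h6
        have h7 : t < σ.length := by
          by_contra hh
          rw [List.drop_eq_nil_of_le (by omega)] at h6
          simp at h6
        have h8 : σ.drop (t + 1) = w := by
          have := List.tail_drop (l := σ) (i := t)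
          rw [← h6] at this
          simpa using this.symm
        refine ⟨t + 1, nxt a, [], h7, ?_, Relation.ReflTransGen.refl, by rw [h8]; rfl⟩
        rw [h8]
        exact Relation.ReflTransGen.tail h₁ (St.pop e)
      | cons b u =>
        rw [List.cons_append, List.cons.injEq] at h6
        obtain ⟨rfl, h6⟩ := h6
        exact ⟨t, q', u, h3, h4, Relation.ReflTransGen.tail h5 (St.pop e), h6⟩
    | choose e hq =>
      exact ⟨t, q', u, h3, h4, Relation.ReflTransGen.tail h5 (St.choose e hq), h6⟩

/-- The node from which the upper part `u` of the stack is produced. -/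
theorem Rch.upper {q p : P.State} {w : List P.Sym} (h : Rch P χ cur x (q, []) (p, w)) :
    ∀ u τ, w = u ++ τ → ∃ q', Rch P χ cur x (q', []) (p, u) := by
  generalize hc : (p, w) = c at h
  induction h generalizing p w with
  | refl =>
    rw [Prod.mk.injEq] at hc
    obtain ⟨rfl, rfl⟩ := hc
    intro u τ h
    have h1 := List.append_eq_nil_iff.1 h.symm
    rw [h1.1]
    exact ⟨p, Relation.ReflTransGen.refl⟩
  | @tail c₁ c₂ h₁ h₂ ih =>
    subst hc
    obtain ⟨p₁, w₁⟩ := c₁
    intro u τ h
    cases h₂ with
    | query e hi =>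
      obtain ⟨q', h3⟩ := ih rfl u τ h
      exact ⟨q', Relation.ReflTransGen.tail h3 (St.query e hi)⟩
    | @push _ _ _ a e =>
      cases u with
      | nil => exact ⟨p, Relation.ReflTransGen.refl⟩
      | cons b u =>
        rw [List.cons_append, List.cons.injEq] at h
        obtain ⟨rfl, h⟩ := h
        obtain ⟨q', h3⟩ := ih rfl u τ h
        exact ⟨q', Relation.ReflTransGen.tail h3 (St.push e)⟩
    | @pop _ _ a nxt e =>
      obtain ⟨q', h3⟩ := ih rfl (a :: u) τ (by rw [h]; rfl)
      exact ⟨q', Relation.ReflTransGen.tail h3 (St.pop e)⟩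
    | choose e hq =>
      obtain ⟨q', h3⟩ := ih rfl u τ h
      exact ⟨q', Relation.ReflTransGen.tail h3 (St.choose e hq)⟩

/-- A configuration without successor. -/
def Fin0 (P : Prog κ ι) (χ : ι → C) (cur : κ → C) (x : ι → Bool) (c : Conf P) : Prop :=
  ∀ c', ¬ St P χ cur x c c'

theorem PEnd.fin0 {p : P.State} (h : PEnd P χ cur p) (w : List P.Sym) :
    Fin0 P χ cur x (p, w) := by
  obtain ⟨h, i, nxt, h1, h2⟩ := h
  intro c' hc
  cases hc with
  | query e hi =>
    rw [h1] at e
    injection e with a1 a2 a3
    subst a1; subst a2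
    exact h2 hi
  | push e => rw [h1] at e; simp at e
  | pop e => rw [h1] at e; simp at e
  | choose e _ => rw [h1] at e; simp at e

theorem Rch.toFin (hP : Det P) {c d e : Conf P} (h : Rch P χ cur x c d)
    (h' : Rch P χ cur x c e) (he : Fin0 P χ cur x e) : Rch P χ cur x d e := by
  induction h using Relation.ReflTransGen.head_induction_on with
  | refl => exact h'
  | @head a b h₁ _ ih =>
    rcases Relation.ReflTransGen.cases_head h' with h2 | ⟨b', h2, h3⟩
    · subst h2
      exact absurd h₁ (he _)
    · rw [h₁.det hP h2] at ih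
      exact ih h3

theorem Rch.fin_unique (hP : Det P) {c d e : Conf P} (h : Rch P χ cur x c d)
    (hd : Fin0 P χ cur x d) (h' : Rch P χ cur x c e) (he : Fin0 P χ cur x e) : d = e := by
  rcases Relation.ReflTransGen.cases_head (h.toFin hP h' he) with h2 | ⟨b', h2, h3⟩
  · exact h2
  · exact absurd h2 (hd _)

/-- In a phase which ends less symbols than nodes are put on the stack. -/
theorem Rch.height (hP : Det P) {q p : P.State} {w : List P.Sym}
    (h : Rch P χ cur x (q, []) (p, w)) (hp : PEnd P χ cur p) :
    w.length < Fintype.card P.State := by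
  have h1 : ∀ j : Fin (w.length + 1), ∃ q', ∃ u : List P.Sym, u.length = j.val ∧
      Rch P χ cur x (q', []) (p, u) := by
    intro j
    obtain ⟨q', h2⟩ := h.upper (w.take j.val) (w.drop j.val) (List.take_append_drop _ _).symm
    refine ⟨q', w.take j.val, ?_, h2⟩
    rw [List.length_take]
    have := j.isLt
    omega
  choose f u hu hf using h1
  have hinj : Function.Injective f := by
    intro i j hij
    have h2 := hf i
    rw [hij] at h2
    have h3 := h2.fin_unique hP (hp.fin0 _) (hf j) (hp.fin0 _)
    rw [Prod.mk.injEq] at h3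
    apply Fin.ext
    rw [← hu i, ← hu j, h3.2]
  have h4 := Fintype.card_le_of_injective f hinj
  rw [Fintype.card_fin] at h4
  omega

/-- The number of phases of the list of queries. -/
def phs [DecidableEq κ] [DecidableEq C] (χ : ι → C) : (κ → C) → List (κ × ι) → ℕ
  | _, [] => 0
  | cur, (h, i) :: l => if χ i = cur h then phs χ cur l
      else phs χ (Function.update cur h (χ i)) l + 1

/-- The rest of an accepting computation after steps in the phase. -/
theorem St.runs [DecidableEq κ] [DecidableEq C] (hP : Det P) {q q' : P.State}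
    {σ σ' : List P.Sym} (h : St P χ cur x (q, σ) (q', σ')) {l : List (κ × ι)}
    (r : P.Runs x q σ l) : ∃ l', P.Runs x q' σ' l' ∧ phs χ cur l' = phs χ cur l := by
  cases h with
  | @query _ _ h i nxt e hi =>
    cases r with
    | accept h => rw [e] at h; simp at h
    | query e' r =>
      rw [e] at e'
      injection e' with a1 a2 a3
      subst a1; subst a2; subst a3
      refine ⟨_, r, ?_⟩
      rw [phs, if_pos hi]
    | push e' _ => rw [e] at e'; simp at e'
    | pop e' _ => rw [e] at e'; simp at e'
    | choose e' _ _ => rw [e] at e'; simp at e'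
  | push e =>
    cases r with
    | accept h => rw [e] at h; simp at h
    | query e' r => rw [e] at e'; simp at e'
    | push e' r =>
      rw [e] at e'
      injection e' with a1 a2
      subst a1; subst a2
      exact ⟨_, r, rfl⟩
    | pop e' _ => rw [e] at e'; simp at e'
    | choose e' _ _ => rw [e] at e'; simp at e'
  | pop e =>
    cases r with
    | accept h => rw [e] at h; simp at h
    | query e' r => rw [e] at e'; simp at e'
    | push e' r => rw [e] at e'; simp at e'
    | pop e' r =>
      rw [e] at e'
      injection e' with a1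
      subst a1
      exact ⟨_, r, rfl⟩
    | choose e' _ _ => rw [e] at e'; simp at e'
  | choose e hq =>
    cases r with
    | accept h => rw [e] at h; simp at h
    | query e' r => rw [e] at e'; simp at e'
    | push e' r => rw [e] at e'; simp at e'
    | pop e' r => rw [e] at e'; simp at e'
    | choose e' hq' r =>
      rw [e] at e'
      injection e' with a1
      subst a1
      rw [hP _ _ e hq hq']
      exact ⟨_, r, rfl⟩

theorem Rch.runs [DecidableEq κ] [DecidableEq C] (hP : Det P) {q q' : P.State}
    {σ σ' : List P.Sym} (h : Rch P χ cur x (q, σ) (q', σ')) {l : List (κ × ι)}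
    (r : P.Runs x q σ l) : ∃ l', P.Runs x q' σ' l' ∧ phs χ cur l' = phs χ cur l := by
  generalize hc : (q', σ') = c at h
  induction h generalizing q' σ' with
  | refl =>
    rw [Prod.mk.injEq] at hc
    obtain ⟨rfl, rfl⟩ := hc
    exact ⟨l, r, rfl⟩
  | @tail c₁ c₂ _ h₂ ih =>
    subst hc
    obtain ⟨q₁, σ₁⟩ := c₁
    obtain ⟨l₁, h3, h4⟩ := ih rfl
    obtain ⟨l₂, h5, h6⟩ := h₂.runs hP h3
    exact ⟨l₂, h5, h6.trans h4⟩

/-- Steps before an accepting computation. -/
theorem St.back {q q' : P.State} {σ σ' : List P.Sym} (h : St P χ cur x (q, σ) (q', σ'))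
    {l : List (κ × ι)} (r : P.Runs x q' σ' l) : ∃ l', P.Runs x q σ l' := by
  cases h with
  | query e hi => exact ⟨_, Prog.Runs.query e r⟩
  | push e => exact ⟨_, Prog.Runs.push e r⟩
  | pop e => exact ⟨_, Prog.Runs.pop e r⟩
  | choose e hq => exact ⟨_, Prog.Runs.choose e hq r⟩

theorem Rch.back {q q' : P.State} {σ σ' : List P.Sym} (h : Rch P χ cur x (q, σ) (q', σ'))
    {l : List (κ × ι)} (r : P.Runs x q' σ' l) : ∃ l', P.Runs x q σ l' := by
  generalize hc : (q', σ') = c at h
  induction h generalizing q' σ' l with
  | refl =>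
    rw [Prod.mk.injEq] at hc
    obtain ⟨rfl, rfl⟩ := hc
    exact ⟨l, r⟩
  | @tail c₁ c₂ _ h₂ ih =>
    subst hc
    obtain ⟨q₁, σ₁⟩ := c₁
    obtain ⟨l₁, h3⟩ := h₂.back r
    exact ih h3 rfl

/-- How an accepting computation leaves the phase and the upper part of the stack. -/
theorem exists_fin {q : P.State} {σ τ : List P.Sym} {l : List (κ × ι)}
    (r : P.Runs x q (σ ++ τ) l) : ∃ p w, Rch P χ cur x (q, σ) (p, w) ∧
      (P.act p = Act.accept ∨ (w = [] ∧ ∃ nxt, P.act p = Act.pop nxt) ∨ PEnd P χ cur p) := by
  generalize hs : σ ++ τ = ρ at r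
  induction r generalizing σ with
  | accept h => exact ⟨_, σ, Relation.ReflTransGen.refl, Or.inl h⟩
  | @query q ρ h i nxt l e _ ih =>
    by_cases hi : χ i = cur h
    · obtain ⟨p, w, h1, h2⟩ := ih hs
      exact ⟨p, w, Relation.ReflTransGen.head (St.query e hi) h1, h2⟩
    · exact ⟨q, σ, Relation.ReflTransGen.refl, Or.inr (Or.inr ⟨h, i, nxt, e, hi⟩)⟩
  | @push q ρ a q' l e _ ih =>
    obtain ⟨p, w, h1, h2⟩ := ih (σ := a :: σ) (by rw [← hs]; rfl)
    exact ⟨p, w, Relation.ReflTransGen.head (St.push e) h1, h2⟩
  | @pop q a ρ nxt l e _ ih =>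
    cases σ with
    | nil => exact ⟨q, [], Relation.ReflTransGen.refl, Or.inr (Or.inl ⟨rfl, nxt, e⟩)⟩
    | cons b σ =>
      rw [List.cons_append, List.cons.injEq] at hs
      obtain ⟨rfl, hs⟩ := hs
      obtain ⟨p, w, h1, h2⟩ := ih hs
      exact ⟨p, w, Relation.ReflTransGen.head (St.pop e) h1, h2⟩
  | choose e hq _ ih =>
    obtain ⟨p, w, h1, h2⟩ := ih hs
    exact ⟨p, w, Relation.ReflTransGen.head (St.choose e hq) h1, h2⟩

end Pool.Agent.W896.TS
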